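import Mathlib

/-!
# Equal E-pattern languages over a three-letter alphabet with different blocks

Over an alphabet `Σ = {a, b, c}` the E-pattern languages of

* `α = x₁ a (s s s x y x y x s s s) b x₂` and
* `β = x₁ a (t t t s s s x y x y x s s s t t t) b x₂`

are equal, but the E-pattern languages of the two blocks in brackets are different.

The inclusion `L(α) ⊆ L(β)` is clear (erase `t`). For the other one, let `w` be the image of the
block of `β`. Then `a w b` always has a factor `a u b` with `u` in the language of the block of `α`,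
and the rest can be absorbed by `x₁` and `x₂`.
-/

set_option autoImplicit false

namespace Pool.Agent.Results.MP_c27bb7_lc.ThreeLetterCounterexample

/-- The image of the word `α` over `ℕ ∪ Σ` under the substitution which maps the variable `n` to the
word `σ n` and fixes the terminal letters. -/
def subst {S : Type} (σ : ℕ → List S) (α : List (ℕ ⊕ S)) : List S :=
  α.flatMap (Sum.elim σ fun a => [a])

/-- The E-pattern language of the word `α` over `ℕ ∪ Σ`. -/
def Lang {S : Type} (α : List (ℕ ⊕ S)) : Set (List S) := {w | ∃ σ : ℕ → List S, w = subst σ α}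

/-- A word of variables, as a word over `ℕ ∪ Σ`. -/
def vars {S : Type} (v : List ℕ) : List (ℕ ⊕ S) := v.map Sum.inl

/-- A word of terminal letters, as a word over `ℕ ∪ Σ`. -/
def terms {S : Type} (u : List S) : List (ℕ ⊕ S) := u.map Sum.inr

/-- The word `A₀ U₁ A₁ U₂ A₂ ⋯ U_m A_m`. -/
def assemble {S : Type} (A : ℕ → List ℕ) (U : ℕ → List S) (m : ℕ) : List (ℕ ⊕ S) :=
  vars (A 0) ++ (List.range m).flatMap fun i => terms (U (i + 1)) ++ vars (A (i + 1))

/-- `α = A₀ U₁ A₁ ⋯ U_m A_m` and `β = B₀ U₁ B₁ ⋯ U_m B_m` is a decomposition which shows that `α`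
and `β` are similar. -/
structure Similar {S : Type} (α β : List (ℕ ⊕ S)) (m : ℕ) (A B : ℕ → List ℕ) (U : ℕ → List S) :
    Prop where
  left : α = assemble A U m
  right : β = assemble B U m
  terms_ne : ∀ i, 1 ≤ i → i ≤ m → U i ≠ []
  vars_ne : ∀ i, 1 ≤ i → i < m → A i ≠ [] ∧ B i ≠ []

/-- The assertion of Q1 for the alphabet `S`: patterns with the same E-pattern language are similar
via a decomposition with `L(Aᵢ) = L(Bᵢ)` for all `i ≤ m`. -/
def Assertion (S : Type) : Prop :=
  ∀ α β : List (ℕ ⊕ S), α ≠ [] → β ≠ [] → Lang α = Lang β →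
    ∃ (m : ℕ) (A B : ℕ → List ℕ) (U : ℕ → List S), Similar α β m A B U ∧
      ∀ i, i ≤ m → Lang (vars (A i) : List (ℕ ⊕ S)) = Lang (vars (B i))

/-- The block `s s s x y x y x s s s`. -/
def blockA : List ℕ := [2, 2, 2, 3, 4, 3, 4, 3, 2, 2, 2]

/-- The block `t t t s s s x y x y x s s s t t t`. -/
def blockB : List ℕ := [5, 5, 5, 2, 2, 2, 3, 4, 3, 4, 3, 2, 2, 2, 5, 5, 5]

/-- The pattern `x₁ a M b x₂`. -/
def pat {S : Type} (a b : S) (M : List ℕ) : List (ℕ ⊕ S) :=
  vars [0] ++ Sum.inr a :: (vars M ++ Sum.inr b :: vars [1])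

section combinatorics

variable {S : Type}

/-- The words in the language of `s s s x y x y x s s s`. -/
def Inner (u : List S) : Prop :=
  ∃ s x y : List S, u = s ++ s ++ s ++ x ++ y ++ x ++ y ++ x ++ s ++ s ++ s

/-- `z` has a factor `a u b` with `Inner u`. -/
def Good (a b : S) (z : List S) : Prop :=
  ∃ P u R : List S, z = P ++ a :: (u ++ b :: R) ∧ Inner u

theorem inner_xyxyx (x y : List S) : Inner (x ++ y ++ x ++ y ++ x) := ⟨[], x, y, by simp⟩

theorem inner_replicate (c : S) {n : ℕ} (hn : 3 ≤ n) : Inner (List.replicate n c) := by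
  have h : n = n % 2 + (n - 3 * (n % 2)) / 2 + n % 2 + (n - 3 * (n % 2)) / 2 + n % 2 := by omega
  have := inner_xyxyx (List.replicate (n % 2) c) (List.replicate ((n - 3 * (n % 2)) / 2) c)
  simp only [← List.replicate_add] at this
  rwa [← h] at this

theorem first_ne {c : S} : ∀ {V : List S}, (∃ z ∈ V, z ≠ c) →
    ∃ (m : ℕ) (z : S) (V' : List S), z ≠ c ∧ V = List.replicate m c ++ z :: V'
  | [], h => by simp at h
  | d :: V, h => by
    by_cases hd : d = c
    · obtain ⟨z, hz, hzc⟩ := h
      rcases List.mem_cons.1 hz with rfl | hz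
      · exact absurd hd hzc
      obtain ⟨m, z', V', h1, h2⟩ := first_ne (V := V) ⟨z, hz, hzc⟩
      refine ⟨m + 1, z', V', h1, ?_⟩
      rw [List.replicate_succ, hd]
      simp [h2]
    · exact ⟨0, d, V, hd, by simp⟩

theorem last_ne {c : S} {V : List S} (h : ∃ z ∈ V, z ≠ c) :
    ∃ (m : ℕ) (z : S) (V' : List S), z ≠ c ∧ V = V' ++ z :: List.replicate m c := by
  obtain ⟨m, z, V', h1, h2⟩ := first_ne (c := c) (V := V.reverse) (by simpa using h)
  refine ⟨m, z, V'.reverse, h1, ?_⟩
  have := congrArg List.reverse h2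
  simpa using this

variable {a b c : S}

theorem good_main (hcov : ∀ z : S, z = a ∨ z = b ∨ z = c) (v V X Y : List S) :
    Good a b (a :: (v ++ v ++ v ++ V ++ V ++ V ++ X ++ Y ++ X ++ Y ++ X ++ V ++ V ++ V ++
      v ++ v ++ v ++ [b])) := by
  by_cases hb : b ∈ v
  · obtain ⟨q, q', rfl⟩ := List.append_of_mem hb
    refine ⟨[], _, q' ++ (V ++ V ++ V ++ X ++ Y ++ X ++ Y ++ X ++ V ++ V ++ V ++ (q ++ b :: q') ++
      (q ++ b :: q') ++ (q ++ b :: q') ++ [b]), ?_, inner_xyxyx q (b :: q')⟩
    simp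
  by_cases ha : a ∈ v
  · obtain ⟨q, q', rfl⟩ := List.append_of_mem ha
    refine ⟨a :: ((q ++ a :: q') ++ (q ++ a :: q') ++ (q ++ a :: q') ++ V ++ V ++ V ++ X ++ Y ++ X ++
      Y ++ X ++ V ++ V ++ V ++ q), _, [], ?_, inner_xyxyx q' (q ++ [a])⟩
    simp
  have hv : v = List.replicate v.length c := by
    refine List.eq_replicate_of_mem fun z hz => ?_
    rcases hcov z with rfl | rfl | rfl
    · exact absurd hz ha
    · exact absurd hz hb
    · rfl
  rcases Nat.eq_zero_or_pos v.length with h0 | h0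
  · have : v = [] := List.length_eq_zero_iff.1 h0
    subst this
    exact ⟨[], V ++ V ++ V ++ X ++ Y ++ X ++ Y ++ X ++ V ++ V ++ V, [], by simp, V, X, Y, rfl⟩
  by_cases hV : ∃ z ∈ V, z ≠ c
  swap
  · have hV' : V = List.replicate V.length c := by
      refine List.eq_replicate_of_mem fun z hz => ?_
      by_contra h
      exact hV ⟨z, hz, h⟩
    refine ⟨[], v ++ v ++ v ++ V ++ V ++ V ++ X ++ Y ++ X ++ Y ++ X ++ V ++ V ++ V ++ v ++ v ++ v,
      [], by simp, v ++ V, X, Y, ?_⟩
    have e1 : v ++ v ++ v ++ V ++ V ++ V = (v ++ V) ++ (v ++ V) ++ (v ++ V) := by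
      rw [hV', hv]
      simp only [← List.replicate_add]
      congr 1
      ring
    have e2 : V ++ V ++ V ++ v ++ v ++ v = (v ++ V) ++ (v ++ V) ++ (v ++ V) := by
      rw [hV', hv]
      simp only [← List.replicate_add]
      congr 1
      ring
    calc v ++ v ++ v ++ V ++ V ++ V ++ X ++ Y ++ X ++ Y ++ X ++ V ++ V ++ V ++ v ++ v ++ v
        = (v ++ v ++ v ++ V ++ V ++ V) ++ (X ++ Y ++ X ++ Y ++ X) ++
            (V ++ V ++ V ++ v ++ v ++ v) := by simp
      _ = _ := by rw [e1, e2]; simp
  -- the run of `c` adjacent to the outer letters has length at least three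
  have hk : 3 ≤ v.length + v.length + v.length := by omega
  have hvvv : v ++ v ++ v = List.replicate (v.length + v.length + v.length) c := by
    conv_lhs => rw [hv]
    simp
  obtain ⟨m, z, V1, hz, hV1⟩ := first_ne hV
  rcases hcov z with rfl | rfl | rfl
  · -- the first letter of `V` which is not `c` is `a`
    -- tail case as a lemma
    have tail : ∀ (W : List S) (m' : ℕ), V = W ++ z :: List.replicate m' c →
        Good z b (z :: (v ++ v ++ v ++ V ++ V ++ V ++ X ++ Y ++ X ++ Y ++ X ++ V ++ V ++ V ++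
          v ++ v ++ v ++ [b])) := by
      intro W m' hW
      refine ⟨z :: (v ++ v ++ v ++ V ++ V ++ V ++ X ++ Y ++ X ++ Y ++ X ++ V ++ V ++ W),
        List.replicate (m' + (v.length + v.length + v.length)) c, [], ?_,
        inner_replicate c (by omega)⟩
      rw [List.replicate_add, ← hvvv]
      conv_lhs => rw [show v ++ v ++ v ++ V ++ V ++ V ++ X ++ Y ++ X ++ Y ++ X ++ V ++ V ++ V ++
        v ++ v ++ v ++ [b] = (v ++ v ++ v ++ V ++ V ++ V ++ X ++ Y ++ X ++ Y ++ X ++ V ++ V) ++
          (V ++ (v ++ (v ++ (v ++ [b])))) by simp]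
      conv_lhs => rw [show V ++ (v ++ (v ++ (v ++ [b]))) =
        (W ++ z :: List.replicate m' c) ++ (v ++ (v ++ (v ++ [b]))) by rw [← hW]]
      simp
    by_cases hV1' : ∃ z' ∈ V1, z' ≠ c
    swap
    · have h1 : V1 = List.replicate V1.length c := by
        refine List.eq_replicate_of_mem fun z' hz' => ?_
        by_contra h
        exact hV1' ⟨z', hz', h⟩
      exact tail (List.replicate m c) V1.length (by rw [← h1]; exact hV1)
    obtain ⟨m', z', V2, hz', hV2⟩ := last_ne hV1'
    rcases hcov z' with rfl | rfl | rfl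
    · exact tail (List.replicate m c ++ z' :: V2) m' (by rw [hV1, hV2]; simp)
    · -- `V = c^m a V2 b c^m'`
      have hVV : V = List.replicate m c ++ z :: (V2 ++ z' :: List.replicate m' c) := by
        rw [hV1, hV2]
      refine ⟨z :: (v ++ v ++ v ++ List.replicate m c), _,
        List.replicate m' c ++ (X ++ Y ++ X ++ Y ++ X ++ V ++ V ++ V ++ v ++ v ++ v ++ [z']), ?_,
        inner_xyxyx V2 (z' :: (List.replicate m' c ++ (List.replicate m c ++ [z])))⟩
      have e : V ++ V ++ V = List.replicate m c ++ z :: (V2 ++ z' :: (List.replicate m' c ++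
          (List.replicate m c ++ z :: (V2 ++ z' :: (List.replicate m' c ++
          (List.replicate m c ++ z :: (V2 ++ z' :: List.replicate m' c))))))) := by
        conv_lhs => rw [hVV]
        simp
      calc z :: (v ++ v ++ v ++ V ++ V ++ V ++ X ++ Y ++ X ++ Y ++ X ++ V ++ V ++ V ++
          v ++ v ++ v ++ [z'])
          = z :: (v ++ v ++ v ++ ((V ++ V ++ V) ++ (X ++ Y ++ X ++ Y ++ X ++ V ++ V ++ V ++
            v ++ v ++ v ++ [z']))) := by simp
        _ = _ := by rw [e]; simp
    · exact absurd rfl hz'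
  · -- the first letter of `V` which is not `c` is `b`
    refine ⟨[], List.replicate (v.length + v.length + v.length + m) c,
      V1 ++ V ++ V ++ X ++ Y ++ X ++ Y ++ X ++ V ++ V ++ V ++ v ++ v ++ v ++ [z], ?_,
      inner_replicate c (by omega)⟩
    rw [List.replicate_add, ← hvvv]
    conv_lhs => rw [show v ++ v ++ v ++ V ++ V ++ V ++ X ++ Y ++ X ++ Y ++ X ++ V ++ V ++ V ++
      v ++ v ++ v ++ [z] = (v ++ v ++ v) ++ (V ++ (V ++ V ++ X ++ Y ++ X ++ Y ++ X ++ V ++ V ++ V ++
      v ++ v ++ v ++ [z])) by simp]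
    conv_lhs => rw [show V ++ (V ++ V ++ X ++ Y ++ X ++ Y ++ X ++ V ++ V ++ V ++
      v ++ v ++ v ++ [z]) = (List.replicate m c ++ z :: V1) ++ (V ++ V ++ X ++ Y ++ X ++ Y ++ X ++
      V ++ V ++ V ++ v ++ v ++ v ++ [z]) by rw [← hV1]]
    simp
  · exact absurd rfl hz

end combinatorics

section languages

variable {S : Type}

theorem subst_append (σ : ℕ → List S) (α β : List (ℕ ⊕ S)) :
    subst σ (α ++ β) = subst σ α ++ subst σ β := by simp [subst]

theorem lang_eq {a b c : S} (hcov : ∀ z : S, z = a ∨ z = b ∨ z = c) :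
    Lang (pat a b blockA) = Lang (pat a b blockB) := by
  ext w
  constructor
  · rintro ⟨σ, rfl⟩
    refine ⟨fun n => if n = 5 then [] else σ n, ?_⟩
    simp [subst, pat, vars, blockA, blockB]
  · rintro ⟨σ, rfl⟩
    obtain ⟨P, u, R, h, s, x, y, hu⟩ := good_main hcov (σ 5) (σ 2) (σ 3) (σ 4)
    refine ⟨fun n => if n = 0 then σ 0 ++ P else if n = 1 then R ++ σ 1 else if n = 2 then s else
      if n = 3 then x else y, ?_⟩
    have e1 : subst σ (pat a b blockB) = σ 0 ++ ((a :: (σ 5 ++ σ 5 ++ σ 5 ++ σ 2 ++ σ 2 ++ σ 2 ++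
        σ 3 ++ σ 4 ++ σ 3 ++ σ 4 ++ σ 3 ++ σ 2 ++ σ 2 ++ σ 2 ++ σ 5 ++ σ 5 ++ σ 5 ++ [b])) ++
        σ 1) := by
      simp [subst, pat, vars, blockB]
    rw [e1, h, hu]
    simp [subst, pat, vars, blockA]

/-- The word `a³ b³ c³ b³ a³`, with the letters `0, 1, 2`. -/
def wit : List (Fin 3) := [0, 0, 0, 1, 1, 1, 2, 2, 2, 1, 1, 1, 0, 0, 0]

theorem wit_check : ∀ i ∈ Finset.range 3, ∀ j ∈ Finset.range 6, ∀ k ∈ Finset.range 8,
    wit.take i ++ wit.take i ++ wit.take i ++ (wit.drop (3 * i)).take j ++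
      (wit.drop (3 * i + j)).take k ++ (wit.drop (3 * i)).take j ++
      (wit.drop (3 * i + j)).take k ++ (wit.drop (3 * i)).take j ++ wit.take i ++ wit.take i ++
      wit.take i ≠ wit := by
  decide

theorem not_inner_wit : ¬ Inner wit := by
  rintro ⟨s, x, y, h⟩
  have hl := congrArg List.length h
  simp only [List.length_append] at hl
  have hl' : 15 = 6 * s.length + 3 * x.length + 2 * y.length := by
    have : wit.length = 15 := rfl
    omega
  have hs : wit.take s.length = s := by rw [h]; simp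
  have hx : (wit.drop (3 * s.length)).take x.length = x := by
    rw [h, show 3 * s.length = (s ++ s ++ s).length by simp; ring]
    rw [show s ++ s ++ s ++ x ++ y ++ x ++ y ++ x ++ s ++ s ++ s =
      (s ++ s ++ s) ++ (x ++ (y ++ x ++ y ++ x ++ s ++ s ++ s)) by simp, List.drop_left,
      List.take_left]
  have hy : (wit.drop (3 * s.length + x.length)).take y.length = y := by
    rw [h, show 3 * s.length + x.length = (s ++ s ++ s ++ x).length by simp; ring]
    rw [show s ++ s ++ s ++ x ++ y ++ x ++ y ++ x ++ s ++ s ++ s =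
      (s ++ s ++ s ++ x) ++ (y ++ (x ++ y ++ x ++ s ++ s ++ s)) by simp, List.drop_left,
      List.take_left]
  have := wit_check s.length (Finset.mem_range.2 (by omega)) x.length
    (Finset.mem_range.2 (by omega)) y.length (Finset.mem_range.2 (by omega))
  rw [hs, hx, hy] at this
  exact this h.symm

theorem Inner.map {T : Type} (f : S → T) {u : List S} (h : Inner u) : Inner (u.map f) := by
  obtain ⟨s, x, y, rfl⟩ := h
  exact ⟨s.map f, x.map f, y.map f, by simp⟩

open Classical in
theorem lang_block_ne {a b c : S} (hab : a ≠ b) (hac : a ≠ c) (hbc : b ≠ c) :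
    Lang (vars blockA : List (ℕ ⊕ S)) ≠ Lang (vars blockB) := by
  intro h
  have h1 : ([a, a, a, b, b, b, c, c, c, b, b, b, a, a, a] : List S) ∈
      Lang (vars blockB : List (ℕ ⊕ S)) :=
    ⟨fun n => if n = 5 then [a] else if n = 2 then [b] else if n = 3 then [c] else [],
      by simp [subst, vars, blockB]⟩
  rw [← h] at h1
  obtain ⟨σ, hσ⟩ := h1
  have h2 : Inner ([a, a, a, b, b, b, c, c, c, b, b, b, a, a, a] : List S) :=
    ⟨σ 2, σ 3, σ 4, by rw [hσ]; simp [subst, vars, blockA]⟩
  have h3 := h2.map (fun z => if z = a then (0 : Fin 3) else if z = b then 1 else 2)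
  apply not_inner_wit
  simpa [wit, hab, hac, hbc, hab.symm, hac.symm, hbc.symm] using h3

end languages

section decompositions

variable {S : Type}

theorem split_unique : ∀ {A A' : List ℕ} {p p' : S} {R R' : List (ℕ ⊕ S)},
    vars A ++ Sum.inr p :: R = vars A' ++ Sum.inr p' :: R' → A = A' ∧ p = p' ∧ R = R'
  | [], [], p, p', R, R', h => by
    simp [vars] at h
    exact ⟨rfl, h.1, h.2⟩
  | [], _ :: _, p, p', R, R', h => by simp [vars] at h
  | _ :: _, [], p, p', R, R', h => by simp [vars] at h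
  | n :: A, n' :: A', p, p', R, R', h => by
    simp only [vars, List.map_cons, List.cons_append, List.cons.injEq, Sum.inl.injEq] at h
    obtain ⟨h1, h2, h3⟩ := split_unique (A := A) (A' := A') h.2
    exact ⟨by rw [h.1, h1], h2, h3⟩

theorem vars_ne_append (A : List ℕ) (p : S) (B C : List (ℕ ⊕ S)) :
    (vars A : List (ℕ ⊕ S)) ≠ B ++ Sum.inr p :: C := by
  intro h
  have : (Sum.inr p : ℕ ⊕ S) ∈ (vars A : List (ℕ ⊕ S)) := by rw [h]; simp
  simp [vars] at this

theorem decomposition {a b : S} {n : ℕ} {M : List ℕ} {m : ℕ} {A : ℕ → List ℕ} {U : ℕ → List S}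
    (h : pat a b (n :: M) = assemble A U m) (hU : ∀ i, 1 ≤ i → i ≤ m → U i ≠ []) :
    2 ≤ m ∧ A 1 = n :: M := by
  rcases m with _ | m
  · simp only [assemble, List.range_zero, List.flatMap_nil, List.append_nil, pat] at h
    exact absurd h.symm (vars_ne_append _ _ _ _)
  obtain ⟨p, U', hp⟩ := List.exists_cons_of_ne_nil (hU 1 le_rfl (by omega))
  rw [assemble, List.range_succ_eq_map, List.flatMap_cons, zero_add, hp, pat] at h
  simp only [terms, List.map_cons, List.cons_append] at h
  obtain ⟨h0, h1, h2⟩ := split_unique h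
  rcases U' with _ | ⟨q, U'⟩
  · simp only [List.map_nil, List.nil_append] at h2
    rcases m with _ | m
    · simp only [List.range_zero, List.map_nil, List.flatMap_nil, List.append_nil] at h2
      exact absurd h2.symm (vars_ne_append _ _ _ _)
    · obtain ⟨q, U'', hq⟩ := List.exists_cons_of_ne_nil (hU 2 (by omega) (by omega))
      rw [List.range_succ_eq_map] at h2
      simp only [List.map_cons, List.flatMap_cons, Nat.succ_eq_add_one, zero_add, one_add_one_eq_two,
        hq, List.cons_append] at h2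
      obtain ⟨h3, -, -⟩ := split_unique h2
      exact ⟨by omega, h3.symm⟩
  · simp [vars] at h2

end decompositions

/-- **Equal E-pattern languages over a three-letter alphabet need not have equal blocks.** Over
every alphabet with exactly three letters the assertion of Q1 is false. In detail, for any two
different letters `a`, `b` the patterns `α = x₁ a sssxyxyxsss b x₂` and
`β = x₁ a tttsssxyxyxsssttt b x₂` have the same E-pattern language, and in every decomposition which
shows that they are similar, `m ≥ 2` and the languages of `A₁ = sssxyxyxsss` and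
`B₁ = tttsssxyxyxsssttt` are different. -/
theorem result (S : Type) [Fintype S] (hS : Fintype.card S = 3) :
    ¬ Assertion S ∧ ∀ a b : S, a ≠ b → Lang (pat a b blockA) = Lang (pat a b blockB) ∧
      ∀ (m : ℕ) (A B : ℕ → List ℕ) (U : ℕ → List S),
        Similar (pat a b blockA) (pat a b blockB) m A B U → 2 ≤ m ∧ A 1 = blockA ∧ B 1 = blockB ∧
          Lang (vars (A 1) : List (ℕ ⊕ S)) ≠ Lang (vars (B 1)) := by
  classical
  have key : ∀ a b : S, a ≠ b → Lang (pat a b blockA) = Lang (pat a b blockB) ∧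
      ∀ (m : ℕ) (A B : ℕ → List ℕ) (U : ℕ → List S),
        Similar (pat a b blockA) (pat a b blockB) m A B U → 2 ≤ m ∧ A 1 = blockA ∧ B 1 = blockB ∧
          Lang (vars (A 1) : List (ℕ ⊕ S)) ≠ Lang (vars (B 1)) := by
    intro a b hab
    obtain ⟨c, hca, hcb, hcov⟩ : ∃ c : S, c ≠ a ∧ c ≠ b ∧ ∀ z : S, z = a ∨ z = b ∨ z = c := by
      have h1 : (({a, b} : Finset S)ᶜ).card = 1 := by
        rw [Finset.card_compl, hS, Finset.card_pair hab]
      obtain ⟨c, hc⟩ := Finset.card_eq_one.1 h1
      have hc' : c ∈ (({a, b} : Finset S)ᶜ) := by rw [hc]; simp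
      simp only [Finset.mem_compl, Finset.mem_insert, Finset.mem_singleton, not_or] at hc'
      refine ⟨c, hc'.1, hc'.2, fun z => ?_⟩
      by_contra hz
      push Not at hz
      have : z ∈ (({a, b} : Finset S)ᶜ) := by
        simp only [Finset.mem_compl, Finset.mem_insert, Finset.mem_singleton, not_or]
        exact ⟨hz.1, hz.2.1⟩
      rw [hc, Finset.mem_singleton] at this
      exact hz.2.2 this
    refine ⟨lang_eq hcov, fun m A B U h => ?_⟩
    obtain ⟨h1, h2⟩ := decomposition (n := 2) (M := [2, 2, 3, 4, 3, 4, 3, 2, 2, 2]) h.left h.terms_ne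
    obtain ⟨-, h3⟩ := decomposition (n := 5)
      (M := [5, 5, 2, 2, 2, 3, 4, 3, 4, 3, 2, 2, 2, 5, 5, 5]) h.right h.terms_ne
    refine ⟨h1, h2, h3, ?_⟩
    rw [h2, h3]
    exact lang_block_ne hab hca.symm hcb.symm
  refine ⟨fun hA => ?_, key⟩
  obtain ⟨a, b, hab⟩ := Fintype.one_lt_card_iff.1 (show 1 < Fintype.card S by omega)
  obtain ⟨h1, h2⟩ := key a b hab
  obtain ⟨m, A, B, U, h3, h4⟩ := hA (pat a b blockA) (pat a b blockB) (by simp [pat, vars])
    (by simp [pat, vars]) h1
  obtain ⟨h5, -, -, h6⟩ := h2 m A B U h3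
  exact h6 (h4 1 (by omega))

end Pool.Agent.Results.MP_c27bb7_lc.ThreeLetterCounterexample
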